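import Pool.Agent.Y506.KS.Rv

/-!
# The KLS conjecture in Cheeger form for intersections of ellipsoidal cylinders

Q1 for all convex bodies `K = {x ∈ ℝⁿ : |Q_i x| ≤ 1 for all i < N}` with linear maps
`Q_i : ℝⁿ → ℝ^{m_i}` and `∑ m_i ≤ n + q`, where the dimensions `m_i` and their number are arbitrary:
the intersections of ellipsoids and of cylinders over ellipsoids of total dimension `n + q`, or
equivalently the central sections of codimension at most `q` of products of Euclidean balls of
arbitrary dimensions. The constant is `c / (1 + q)²`. Examples: an ellipsoid cut by `q` symmetric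
slabs, or by any ellipsoidal cylinders of total dimension `q`; the symmetric polytopes with
`2 (n + q)` facets (`m_i = 1`). Minkowski boundary measure, all measurable sets.

Method. After a linear change of variables `ℝⁿ` is the orthogonal complement of a `q`-dimensional
subspace `F` of `∏ ℝ^{m_i}`. The posteriors of the Gaussian channel with input uniform on `K` are
sections of products of Gaussian tilts of balls. New here is the bound for the tilts: if `X, Y` are
independent with a density proportional to `exp(⟪a, x⟫ - b |x|²)` on the ball of radius `ρ` in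
`ℝ^k`, then given `X + Y = 2 z` the density of `u = (X - Y) / 2` is `exp(- 2 b |u|²)` on the set
`|z|² + |u|² + 2 |⟪z, u⟫| ≤ ρ²`; it does not depend on `a`, and the exchange of two coordinates,
one of them along `z`, shows that the second moment of `u` is smallest in the direction of `z`. So
all these tilts have covariance at most `4 ρ² / k`, whatever `a`, `b` and `k` are. The covariances of
sections and of product measures are compared by the Prekopa-Leindler inequality as in
`SectionsOfProductsCheeger`, and the Cheeger inequality follows from the Poincare inequality with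
constant `C (1 + q)⁴` times the largest variance of `K` (modules `KH` of the starting files).
-/

set_option autoImplicit false

namespace Pool.Agent.Results.MP_8d00da_gt.EllipsoidalCylinders

open MeasureTheory Set
open scoped ENNReal InnerProductSpace

/-- Euclidean space of dimension `n` -/
abbrev Euc (n : ℕ) : Type := EuclideanSpace ℝ (Fin n)

/-- `{x | |Q_i x| ≤ 1 for all i}` -/
def cylinders {n N : ℕ} {d : Fin N → ℕ} (Q : ∀ i, Euc n →ₗ[ℝ] Euc (d i)) : Set (Euc n) :=
  {x | ∀ i, ‖Q i x‖ ≤ 1}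

/-- Minkowski (exterior) boundary measure `μ⁺(A)` -/
noncomputable def bdry {n : ℕ} (μ : Measure (Euc n)) (A : Set (Euc n)) : ℝ≥0∞ :=
  Filter.liminf (fun ε : ℝ => (μ (Metric.thickening ε A) - μ A) / ENNReal.ofReal ε)
    (nhdsWithin 0 (Set.Ioi 0))

/-- the halfspace `⟪u, x⟫ ≤ b` -/
def halfspace {n : ℕ} (u : Euc n) (b : ℝ) : Set (Euc n) := {x | inner ℝ u x ≤ b}

/-- the uniform probability measure on `K` -/
noncomputable def unif {n : ℕ} (K : Set (Euc n)) : Measure (Euc n) :=
  (volume K)⁻¹ • volume.restrict K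

/-- the inequality of Kannan, Lovasz and Simonovits with constant `c` for the uniform measure `μ` on
`K`: if `t min(μ H, 1 - μ H) ≤ μ⁺(H)` for all halfspaces `H` then `c t min(μ A, 1 - μ A) ≤ μ⁺(A)` for
all measurable `A`; that is, `D_Che(μ) ≥ c D_Che^Lin(μ)`. -/
def KLSBound {n : ℕ} (c : ℝ) (K : Set (Euc n)) : Prop :=
  ∀ t : ℝ≥0∞, (∀ (u : Euc n) (b : ℝ), u ≠ 0 →
      t * min (unif K (halfspace u b)) (1 - unif K (halfspace u b)) ≤
        bdry (unif K) (halfspace u b)) →
    ∀ A : Set (Euc n), MeasurableSet A →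
      ENNReal.ofReal c * t * min (unif K A) (1 - unif K A) ≤ bdry (unif K) A

/-- **KLS (Cheeger form) for intersections of ellipsoidal cylinders.** There is an absolute constant
`c > 0` such that for all `n ≥ 1`, `q ≥ 0`, all `N`, all `m_i ≥ 1` with `∑ m_i ≤ n + q` and all linear
maps `Q_i : ℝⁿ → ℝ^{m_i}`, `i < N`, for which `K = {x | |Q_i x| ≤ 1 for all i}` is bounded:
`D_Che(λ_K) ≥ c / (1 + q)² D_Che^Lin(λ_K)`. -/
theorem result : ∃ c : ℝ, 0 < c ∧ ∀ (n q N : ℕ) (d : Fin N → ℕ)
    (Q : ∀ i, Euc n →ₗ[ℝ] Euc (d i)), 1 ≤ n → (∀ i, 1 ≤ d i) → ∑ i, d i ≤ n + q →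
    Bornology.IsBounded (cylinders Q) → KLSBound (c / (1 + q) ^ 2) (cylinders Q) := by
  obtain ⟨c, hc, H⟩ := Pool.Agent.Y506.KS.cheegerP
  refine ⟨c / (4 * Real.sqrt 44040192), by positivity, ?_⟩
  intro n q N d Q hn hd hsum hbd
  have hne' : Nonempty (Fin n) := ⟨⟨0, hn⟩⟩
  let Q' : ∀ i, Euc n →L[ℝ] Euc (d i) := fun i => LinearMap.toContinuousLinearMap (Q i)
  have hQQ : ∀ i x, Q' i x = Q i x := fun i x => rfl
  obtain ⟨K, hK⟩ : ∃ K : Set (Euc n), K = cylinders Q := ⟨_, rfl⟩
  have hmemK : ∀ x, x ∈ K ↔ ∀ i, ‖Q' i x‖ ≤ 1 := fun x => by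
    rw [hK]
    rfl
  rw [← hK] at hbd ⊢
  have hQ : ∀ x, (∀ i, Q' i x = 0) → x = 0 := by
    intro x hx
    by_contra hne
    obtain ⟨R, hR⟩ := hbd.exists_norm_le
    have hxn : 0 < ‖x‖ := norm_pos_iff.2 hne
    have hmem : ((|R| + 1) / ‖x‖) • x ∈ K := by
      rw [hmemK]
      intro i
      rw [map_smul, hx i, smul_zero, norm_zero]
      exact zero_le_one
    have h1 := hR _ hmem
    rw [norm_smul, Real.norm_of_nonneg (by positivity), div_mul_cancel₀ _ hxn.ne'] at h1
    linarith [le_abs_self R]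
  have hconv : Convex ℝ K := by
    intro x hx y hy s t hs ht hst
    rw [hmemK] at hx hy ⊢
    intro i
    rw [map_add, map_smul, map_smul]
    refine (norm_add_le _ _).trans ?_
    rw [norm_smul, norm_smul, Real.norm_of_nonneg hs, Real.norm_of_nonneg ht]
    calc s * ‖Q' i x‖ + t * ‖Q' i y‖ ≤ s * 1 + t * 1 :=
          add_le_add (mul_le_mul_of_nonneg_left (hx i) hs) (mul_le_mul_of_nonneg_left (hy i) ht)
      _ = 1 := by rw [mul_one, mul_one, hst]
  have hclosed : IsClosed K := by
    have e : K = ⋂ i, {x | ‖Q' i x‖ ≤ 1} := by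
      ext x
      rw [hmemK]
      simp
    rw [e]
    exact isClosed_iInter fun i => isClosed_le (Q' i).continuous.norm continuous_const
  have hint : (interior K).Nonempty := by
    refine ⟨0, mem_interior.2 ⟨⋂ i, {x | ‖Q' i x‖ < 1}, ?_, ?_, ?_⟩⟩
    · intro x hx
      rw [hmemK]
      intro i
      have := mem_iInter.1 hx i
      exact le_of_lt this
    · exact isOpen_iInter_of_finite fun i => isOpen_lt (Q' i).continuous.norm continuous_const
    · refine mem_iInter.2 fun i => ?_
      change ‖Q' i 0‖ < 1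
      rw [map_zero, norm_zero]
      exact zero_lt_one
  have hsym : ∀ x ∈ K, -x ∈ K := by
    intro x hx
    rw [hmemK] at hx ⊢
    intro i
    rw [map_neg, norm_neg]
    exact hx i
  have hP : Pool.Agent.Y506.KS.PoK K (Pool.Agent.Y506.KS.CE q) := by
    have h1 := Pool.Agent.Y506.KS.ball_PoK Pool.Agent.Y506.KS.ij_closed hQ
      (fun i => Nat.lt_of_lt_of_le Nat.zero_lt_one (hd i)) q (by simpa using hsum)
    have e : K = {x | ∀ i, (fun t : ℝ => if t ≤ 1 then (1 : ℝ) else 0) (‖Q' i x‖ ^ 2) = 1} := by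
      ext x
      rw [hmemK]
      refine forall_congr' fun i => ?_
      have h2 : ‖Q' i x‖ ^ 2 ≤ 1 ↔ ‖Q' i x‖ ≤ 1 := by
        rw [sq_le_one_iff_abs_le_one, abs_norm]
      simp only [← h2]
      by_cases h3 : ‖Q' i x‖ ^ 2 ≤ 1
      · simp [h3]
      · simp [h3]
    rw [e]
    exact h1
  have hcomp : IsCompact K := Metric.isCompact_of_isClosed_isBounded hclosed hbd
  have key := H (Fin n) K hconv hcomp hint hsym (Pool.Agent.Y506.KS.CE q)
    (Pool.Agent.Y506.KS.CE_pos q) hP
  intro t ht A hA
  have h1 : ENNReal.ofReal (c / Real.sqrt (Pool.Agent.Y506.KS.CE q)) * t *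
      min (unif K A) (1 - unif K A) ≤ bdry (unif K) A := key (unif K) rfl t ht A hA
  refine le_trans ?_ h1
  have h2 : c / (4 * Real.sqrt 44040192) / (1 + q) ^ 2 ≤
      c / Real.sqrt (Pool.Agent.Y506.KS.CE q) := by
    have h3 : Real.sqrt (Pool.Agent.Y506.KS.CE q) = Real.sqrt 44040192 * ((q : ℝ) + 2) ^ 2 := by
      unfold Pool.Agent.Y506.KS.CE
      have e : (44040192 : ℝ) * ((q : ℝ) + 2) ^ 4 = 44040192 * (((q : ℝ) + 2) ^ 2) ^ 2 := by ring
      rw [e, Real.sqrt_mul (by norm_num), Real.sqrt_sq (by positivity)]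
    rw [h3, div_div]
    refine div_le_div_of_nonneg_left hc.le (by positivity) ?_
    have h4 : ((q : ℝ) + 2) ^ 2 ≤ 4 * (1 + q) ^ 2 := by
      have : (0 : ℝ) ≤ q := Nat.cast_nonneg q
      nlinarith
    calc Real.sqrt 44040192 * ((q : ℝ) + 2) ^ 2
        ≤ Real.sqrt 44040192 * (4 * (1 + q) ^ 2) := by gcongr
      _ = _ := by ring
  gcongr

end Pool.Agent.Results.MP_8d00da_gt.EllipsoidalCylinders
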