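import Pool.Agent.Y506.KS.Rv

/-!
# The hyperplane conjecture of Kannan, Lovasz and Simonovits for intersections of ellipsoidal cylinders

For all bounded sets `Ω = {x ∈ ℝⁿ : |Q_i x| < 1 for all i < N}` with linear maps
`Q_i : ℝⁿ → ℝ^{m_i}` and `∑ m_i ≤ n + q`, where the dimensions `m_i` and their number are arbitrary
(intersections of ellipsoids and of cylinders over ellipsoids of total dimension `n + q`; central
sections of codimension at most `q` of products of Euclidean balls of arbitrary dimensions), the best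
central hyperplane cut is at most `C (1 + q)²` times the perimeter of any set of half the volume.
Examples: an ellipsoid cut by `q` symmetric slabs, or by any ellipsoidal cylinders of total dimension
`q`; the symmetric polytopes with `2 (n + q)` facets (`m_i = 1`).

Method. After a linear change of variables `ℝⁿ` is the orthogonal complement of a `q`-dimensional
subspace `F` of `∏ ℝ^{m_i}`. The posteriors of the Gaussian channel with input uniform on `Ω` are
sections of products of Gaussian tilts of balls. New here is the bound for the tilts: if `X, Y` are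
independent with a density proportional to `exp(⟪a, x⟫ - b |x|²)` on the ball of radius `ρ` in
`ℝ^k`, then given `X + Y = 2 z` the density of `u = (X - Y) / 2` is `exp(- 2 b |u|²)` on the set
`|z|² + |u|² + 2 |⟪z, u⟫| < ρ²`; it does not depend on `a`, and the exchange of two coordinates,
one of them along `z`, shows that the second moment of `u` is smallest in the direction of `z`. So
all these tilts have covariance at most `4 ρ² / k`, whatever `a`, `b` and `k` are. The covariances of
sections and of product measures are compared by the Prekopa-Leindler inequality as in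
`SectionsOfProducts`. This gives the Poincare inequality with constant `C (1 + q)⁴` times the largest
variance of `Ω`. The rest is the formalised implication from Poincare to Cheeger inequalities, the De
Giorgi perimeter by mollification and the bound for the central section of an even log-concave
marginal of the starting files (modules `KH`).
-/

set_option autoImplicit false

namespace Pool.Agent.Results.MP_dc1397_gt.EllipsoidalCylinders

open MeasureTheory Set
open scoped ENNReal InnerProductSpace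

/-- Euclidean space of dimension `n` -/
abbrev Euc (n : ℕ) : Type := EuclideanSpace ℝ (Fin n)

/-- `{x | |Q_i x| < 1 for all i}` -/
def cylinders {n N : ℕ} {d : Fin N → ℕ} (Q : ∀ i, Euc n →ₗ[ℝ] Euc (d i)) : Set (Euc n) :=
  {x | ∀ i, ‖Q i x‖ < 1}

/-- the Lebesgue measure of a Euclidean space -/
noncomputable def lebesgue (F : Type) [NormedAddCommGroup F] [InnerProductSpace ℝ F]
    [FiniteDimensional ℝ F] [MeasurableSpace F] [BorelSpace F] : Measure F := volume

/-- the Lebesgue measure (of the Euclidean space `W`) of the section `Ω ∩ W` by a subspace `W` -/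
noncomputable def areaIn {F : Type} [NormedAddCommGroup F] [InnerProductSpace ℝ F]
    [FiniteDimensional ℝ F] [MeasurableSpace F] [BorelSpace F] (W : Submodule ℝ F) (Ω : Set F) :
    ℝ≥0∞ := lebesgue W {y : W | (y : F) ∈ Ω}

section defs

variable {κ : Type} [Fintype κ]

open Classical in
/-- divergence of a vector field on `ℝ^κ` -/
noncomputable def divergence (X : EuclideanSpace ℝ κ → EuclideanSpace ℝ κ)
    (x : EuclideanSpace ℝ κ) : ℝ :=
  ∑ i, fderiv ℝ X x (EuclideanSpace.single i 1) i

/-- `C¹` vector fields with compact support in `Ω` and `‖X‖ ≤ 1` -/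
structure Test (Ω : Set (EuclideanSpace ℝ κ)) (X : EuclideanSpace ℝ κ → EuclideanSpace ℝ κ) :
    Prop where
  diff : ContDiff ℝ 1 X
  comp : HasCompactSupport X
  sub : tsupport X ⊆ Ω
  le : ∀ x, ‖X x‖ ≤ 1

/-- the (De Giorgi) perimeter `P(E; Ω)` of `E` relative to the open set `Ω` -/
noncomputable def perimeter (E Ω : Set (EuclideanSpace ℝ κ)) : ℝ≥0∞ :=
  ⨆ (X : EuclideanSpace ℝ κ → EuclideanSpace ℝ κ) (_ : Test Ω X),
    ENNReal.ofReal (∫ x in E, divergence X x)

/-- the area (Lebesgue measure in the hyperplane `a^⊥`) of the central section of `Ω` by `a^⊥` -/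
noncomputable def sectionArea (Ω : Set (EuclideanSpace ℝ κ)) (a : EuclideanSpace ℝ κ) : ℝ≥0∞ :=
  areaIn (Submodule.span ℝ {a})ᗮ Ω

/-- some central hyperplane section has area at most `K P(E; Ω)` for every measurable `E ⊆ Ω` with
`|E| = |Ω| / 2` -/
def HyperplaneBound (K : ℝ) (Ω : Set (EuclideanSpace ℝ κ)) : Prop :=
  ∃ a : EuclideanSpace ℝ κ, a ≠ 0 ∧ ∀ E : Set (EuclideanSpace ℝ κ), MeasurableSet E → E ⊆ Ω →
    volume E = volume Ω / 2 → sectionArea Ω a ≤ ENNReal.ofReal K * perimeter E Ω

/-- the perimeter is the one used in the proof -/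
theorem perimeter_eq (E Ω : Set (EuclideanSpace ℝ κ)) :
    Pool.Agent.W695.KH.per E Ω = perimeter E Ω := by
  unfold perimeter Pool.Agent.W695.KH.per
  refine iSup_congr fun X => ?_
  refine iSup_congr_Prop ⟨fun h => ⟨h.1, h.2.1, h.2.2.1, h.2.2.2⟩,
    fun h => ⟨h.diff, h.comp, h.sub, h.le⟩⟩ fun _ => rfl

end defs

/-- **The hyperplane conjecture for intersections of ellipsoidal cylinders.** There is an absolute
constant `C` such that for all `n ≥ 1`, `q ≥ 0`, all `N`, all `m_i ≥ 1` with `∑ m_i ≤ n + q` and all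
linear maps `Q_i : ℝⁿ → ℝ^{m_i}`, `i < N`, for which `Ω = {x | |Q_i x| < 1 for all i}` is bounded, there
is a central hyperplane `a^⊥` such that for every measurable `E ⊆ Ω` with `|E| = |Ω| / 2`:
`H_{n-1}(Ω ∩ a^⊥) ≤ C (1 + q)² P(E; Ω)`. -/
theorem result : ∃ C : ℝ, 0 < C ∧ ∀ (n q N : ℕ) (d : Fin N → ℕ)
    (Q : ∀ i, Euc n →ₗ[ℝ] Euc (d i)), 1 ≤ n → (∀ i, 1 ≤ d i) → ∑ i, d i ≤ n + q →
    Bornology.IsBounded (cylinders Q) → HyperplaneBound (C * (1 + q) ^ 2) (cylinders Q) := by
  obtain ⟨C, hC, H⟩ := Pool.Agent.Y506.KS.finalP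
  refine ⟨C * (4 * Real.sqrt 44040192), by positivity, ?_⟩
  intro n q N d Q hn hd hsum hbd
  have hne' : Nonempty (Fin n) := ⟨⟨0, hn⟩⟩
  let Q' : ∀ i, Euc n →L[ℝ] Euc (d i) := fun i => LinearMap.toContinuousLinearMap (Q i)
  obtain ⟨Ω, hΩ⟩ : ∃ Ω : Set (Euc n), Ω = cylinders Q := ⟨_, rfl⟩
  have hmem : ∀ x, x ∈ Ω ↔ ∀ i, ‖Q' i x‖ < 1 := fun x => by
    rw [hΩ]
    rfl
  rw [← hΩ] at hbd ⊢
  have hQ : ∀ x, (∀ i, Q' i x = 0) → x = 0 := by
    intro x hx
    by_contra hne
    obtain ⟨R, hR⟩ := hbd.exists_norm_le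
    have hxn : 0 < ‖x‖ := norm_pos_iff.2 hne
    have hm : ((|R| + 1) / ‖x‖) • x ∈ Ω := by
      rw [hmem]
      intro i
      rw [map_smul, hx i, smul_zero, norm_zero]
      exact zero_lt_one
    have h1 := hR _ hm
    rw [norm_smul, Real.norm_of_nonneg (by positivity), div_mul_cancel₀ _ hxn.ne'] at h1
    linarith [le_abs_self R]
  have hconv : Convex ℝ Ω := by
    intro x hx y hy s t hs ht hst
    rw [hmem] at hx hy ⊢
    intro i
    rw [map_add, map_smul, map_smul]
    refine lt_of_le_of_lt (norm_add_le _ _) ?_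
    rw [norm_smul, norm_smul, Real.norm_of_nonneg hs, Real.norm_of_nonneg ht]
    rcases eq_or_lt_of_le hs with h0 | h0
    · have ht1 : t = 1 := by linarith
      rw [← h0, ht1, zero_mul, zero_add, one_mul]
      exact hy i
    · calc s * ‖Q' i x‖ + t * ‖Q' i y‖ < s * 1 + t * 1 :=
            add_lt_add_of_lt_of_le (mul_lt_mul_of_pos_left (hx i) h0)
              (mul_le_mul_of_nonneg_left (hy i).le ht)
        _ = 1 := by rw [mul_one, mul_one, hst]
  have hopen : IsOpen Ω := by
    have e : Ω = ⋂ i, {x | ‖Q' i x‖ < 1} := by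
      ext x
      rw [hmem]
      simp
    rw [e]
    exact isOpen_iInter_of_finite fun i => isOpen_lt (Q' i).continuous.norm continuous_const
  have h0 : (0 : Euc n) ∈ Ω := by
    rw [hmem]
    intro i
    rw [map_zero, norm_zero]
    exact zero_lt_one
  have hsym : ∀ x ∈ Ω, -x ∈ Ω := by
    intro x hx
    rw [hmem] at hx ⊢
    intro i
    rw [map_neg, norm_neg]
    exact hx i
  have hP : Pool.Agent.Y506.KS.PoK Ω (Pool.Agent.Y506.KS.CE q) := by
    have h1 := Pool.Agent.Y506.KS.ball_PoK Pool.Agent.Y506.KS.ij_open hQ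
      (fun i => Nat.lt_of_lt_of_le Nat.zero_lt_one (hd i)) q (by simpa using hsum)
    have e : Ω = {x | ∀ i, (fun t : ℝ => if t < 1 then (1 : ℝ) else 0) (‖Q' i x‖ ^ 2) = 1} := by
      ext x
      rw [hmem]
      refine forall_congr' fun i => ?_
      have h2 : ‖Q' i x‖ ^ 2 < 1 ↔ ‖Q' i x‖ < 1 := by
        rw [sq_lt_one_iff_abs_lt_one, abs_norm]
      simp only [← h2]
      by_cases h3 : ‖Q' i x‖ ^ 2 < 1
      · simp [h3]
      · simp [h3]
    rw [e]
    exact h1
  obtain ⟨a, ha, h⟩ := H (Fin n) Ω hopen hconv hbd h0 hsym (Pool.Agent.Y506.KS.CE q)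
    (Pool.Agent.Y506.KS.CE_pos q) hP
  refine ⟨a, ha, fun E hE hEΩ hvol => ?_⟩
  have h4 := h E hE hEΩ hvol
  rw [perimeter_eq] at h4
  refine h4.trans ?_
  have h2 : C * Real.sqrt (Pool.Agent.Y506.KS.CE q) ≤
      C * (4 * Real.sqrt 44040192) * (1 + q) ^ 2 := by
    have h3 : Real.sqrt (Pool.Agent.Y506.KS.CE q) = Real.sqrt 44040192 * ((q : ℝ) + 2) ^ 2 := by
      unfold Pool.Agent.Y506.KS.CE
      have e : (44040192 : ℝ) * ((q : ℝ) + 2) ^ 4 = 44040192 * (((q : ℝ) + 2) ^ 2) ^ 2 := by ring
      rw [e, Real.sqrt_mul (by norm_num), Real.sqrt_sq (by positivity)]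
    rw [h3, mul_assoc]
    refine mul_le_mul_of_nonneg_left ?_ hC.le
    have h4 : ((q : ℝ) + 2) ^ 2 ≤ 4 * (1 + q) ^ 2 := by
      have : (0 : ℝ) ≤ q := Nat.cast_nonneg q
      nlinarith
    calc Real.sqrt 44040192 * ((q : ℝ) + 2) ^ 2
        ≤ Real.sqrt 44040192 * (4 * (1 + q) ^ 2) := by gcongr
      _ = _ := by ring
  gcongr

end Pool.Agent.Results.MP_dc1397_gt.EllipsoidalCylinders
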