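import Pool.Agent.Y506.FF.Asm

/-!
# KLS for polytopes with few facets and for their marginals

Q1, in the form of the inequality for sets of measure one half, for all uniform measures on polytopes
in `ℝ^m` with at most `m + q` facets, and for the laws of all their linear images (in particular for
all marginals). No symmetry is assumed. The constant depends on `q` only, the dimensions are arbitrary.
For a log-concave measure the infimum which defines `ψ_μ` is attained for sets of measure one half
(concavity of the isoperimetric profile, see the list of known facts in `MP_8d00da_gt`), so this is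
`ψ_μ √‖A‖ ≥ c_q` for these measures. The case `q = 1` consists of the simplices and their marginals.

Method. Let `N ≤ m + q` be the number of facets. With the analytic centre as origin the polytope is,
after an affine change of variables, the section `{t ∈ A : t ≥ 0}` of the orthant of `ℝ^N` by an affine
subspace `A ∋ (1, …, 1)` with `∑ t_i` constant on `A`; so its uniform measure `ν` is the section of the
exponential product measure `ρ` (density `exp (-∑ s_i)`), of codimension `d ≤ q`. Let `F` be the
orthogonal complement of the direction of `A`, and let `π_i` be the squared norm of the projection of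
the `i`-th basis vector to `F`. New here is a thickening map for sections of product measures,
`s_i = t_i / (1 - λ_i)`, `t ∈ A`, `λ ∈ F`, `|λ| < 1/2`. It is injective, its Jacobian is
`∏ (1 - λ_i)⁻¹ det (P_F diag(s) P_F)`, the terms of first order in `λ` of the Jacobian and of the density
cancel exactly, and `|s - t|² ≤ ∑ π_i s_i² / 4`, which has a bounded expectation under `ρ`. Since
`det (P_F diag(s) P_F) ≥ ∏ s_i ^ π_i`, a set of points of the section where a Lipschitz function is far
from its mean under `ρ` has, with the weight `exp (-Y)`, `Y = ∑ π_i (t_i / 2 + (log 1/t_i)_+)`, a small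
measure by the Poincare inequality of `ρ`; and the expectation of `Y` under `ν` is bounded. This, and
lower bounds for the volume and for the covariance of the section, follow from estimates for isotropic
log-concave densities in dimension `d` and `d + 1` (marginals of `ρ`). So Lipschitz functions are
concentrated on the section, which implies the isoperimetric inequality for sets of measure one half by
a heat flow argument (modules `KH` of the starting files, with the gradient bound of the heat flow and
the concentration of Lipschitz functions in place of the weak Poincare inequality).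

The proofs of the lemmas `S_LD`, `S_LOG`, `S_MOM`, `S_VAR`, `S_DEC`, `S_CPL`, `S_CEN`, `S_SPL`, `S_DET`,
`S_JAC`, `S_TH`, `S_MILA`, `S_MILB` are by helpers 363, 761, 100, 758, 67, 655, 362, 809, 487, 445, 665.
-/

set_option autoImplicit false

namespace Pool.Agent.Results.MP_6d896a_gt.FewFacetMarginals

open MeasureTheory Set
open scoped ENNReal InnerProductSpace

/-- Euclidean space of dimension `n` -/
abbrev Euc (n : ℕ) : Type := EuclideanSpace ℝ (Fin n)

/-- the intersection of the `N` halfspaces `⟪v_i, x⟫ ≤ b_i` -/
def polyhedron {m N : ℕ} (v : Fin N → Euc m) (b : Fin N → ℝ) : Set (Euc m) :=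
  {x | ∀ i, ⟪v i, x⟫_ℝ ≤ b i}

/-- the uniform probability measure on `K` -/
noncomputable def unif {m : ℕ} (K : Set (Euc m)) : Measure (Euc m) :=
  (volume K)⁻¹ • volume.restrict K

/-- the boundary measure `μ⁺(S)`, the lower limit of `(μ(S_ε) - μ(S)) / ε` for the open
neighbourhoods `S_ε` of `S` -/
noncomputable def bdry {n : ℕ} (μ : Measure (Euc n)) (S : Set (Euc n)) : ℝ≥0∞ :=
  Filter.liminf (fun ε : ℝ => (μ (Metric.thickening ε S) - μ S) / ENNReal.ofReal ε)
    (nhdsWithin 0 (Set.Ioi 0))

/-- `μ⁺(S) √s ≥ c min(μ S, μ Sᶜ)` for all measurable sets `S` of measure one half and for every bound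
`s` of the variances of the marginals of `μ` in directions of length one -/
def KLSHalf {n : ℕ} (c : ℝ) (μ : Measure (Euc n)) : Prop :=
  ∀ s : ℝ, 0 < s →
    (∀ θ : Euc n, ‖θ‖ = 1 → ProbabilityTheory.variance (fun x => ⟪x, θ⟫_ℝ) μ ≤ s) →
    ∀ S : Set (Euc n), MeasurableSet S → μ S = 1 / 2 →
      ENNReal.ofReal (c / Real.sqrt s) * min (μ S) (μ Sᶜ) ≤ bdry μ S

/-- **KLS for polytopes with few facets and their marginals.** For every `q` there is a constant
`c > 0` such that for all `m ≥ 1`, all bounded polyhedra `P ⊂ ℝ^m` with nonempty interior given by at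
most `m + q` linear inequalities, and all linear maps `T : ℝ^m → ℝⁿ`, the law `μ` of `T X`, `X` uniform
on `P`, is a probability measure with `μ⁺(S) √‖A‖ ≥ c min(μ S, μ Sᶜ)` for all measurable `S` with
`μ S = 1/2`, where `A` is the covariance matrix of `μ`. -/
theorem result : ∀ q : ℕ, ∃ c : ℝ, 0 < c ∧ ∀ (m N : ℕ) (v : Fin N → Euc m) (b : Fin N → ℝ),
    1 ≤ m → N ≤ m + q → Bornology.IsBounded (polyhedron v b) →
    (interior (polyhedron v b)).Nonempty →
    ∀ (n : ℕ) (T : Euc m →ₗ[ℝ] Euc n) (μ : Measure (Euc n)),
      μ = Measure.map T (unif (polyhedron v b)) → IsProbabilityMeasure μ ∧ KLSHalf c μ := by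
  intro q
  obtain ⟨c, hc, H⟩ := Pool.Agent.Y506.FF.poly q
  refine ⟨c, hc, ?_⟩
  intro m N v b hm hN hbd hint n T μ hμ
  have hvol : 0 < volume (polyhedron v b) :=
    lt_of_lt_of_le (isOpen_interior.measure_pos volume hint) (measure_mono interior_subset)
  have hfin : volume (polyhedron v b) ≠ ⊤ := hbd.measure_lt_top.ne
  have hprob : IsProbabilityMeasure μ := by
    have := Pool.Agent.Y506.KS.unif_prob hvol hfin
    rw [hμ]
    unfold unif
    exact Measure.isProbabilityMeasure_map T.continuous_of_finiteDimensional.measurable.aemeasurable
  refine ⟨hprob, fun s hs hvar S hS hS2 => ?_⟩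
  have key := H m N hm hN v b hbd hint n T μ hμ s hs hvar S hS hS2
  refine le_trans ?_ key
  calc ENNReal.ofReal (c / Real.sqrt s) * min (μ S) (μ Sᶜ)
      ≤ ENNReal.ofReal (c / Real.sqrt s) * 1 :=
        mul_le_mul_right ((min_le_left _ _).trans prob_le_one) _
    _ = _ := mul_one _

end Pool.Agent.Results.MP_6d896a_gt.FewFacetMarginals
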