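import Pool.Agent.Y506.FF.Che
import Pool.Agent.Y211.FF.Half

/-!
# The KLS conjecture in Cheeger form for polytopes with few facets

Q1, in the form of the inequality for sets `A` of measure one half, for all polytopes in `ℝⁿ` with at
most `n + q` facets, without any symmetry; the constant depends on `q` only. By the reduction to
measure one half quoted in the problem (Sternberg and Zumbrun) this is
`D_Che(λ_K) ≥ c_q D_Che^Lin(λ_K)` for these `K`. The case `q = 1` consists of the simplices.

Method. With the analytic centre as origin the polytope is, after an affine change of variables, the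
section `{t ∈ A : t ≥ 0}` of the orthant of `ℝ^N`, `N ≤ n + q`, by an affine subspace `A ∋ (1, …, 1)`
with `∑ t_i` constant on `A`; so its uniform measure `ν` is the section of the exponential product
measure `ρ` (density `exp (-∑ s_i)`), of codimension `d ≤ q`. Let `F` be the orthogonal complement of
the direction of `A`, and let `π_i` be the squared norm of the projection of the `i`-th basis vector to
`F`. New here is a thickening map for sections of product measures, `s_i = t_i / (1 - λ_i)`, `t ∈ A`,
`λ ∈ F`, `|λ| < 1/2`. It is injective, its Jacobian is `∏ (1 - λ_i)⁻¹ det (P_F diag(s) P_F)`, the terms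
of first order in `λ` of the Jacobian and of the density cancel exactly, and
`|s - t|² ≤ ∑ π_i s_i² / 4`, which has a bounded expectation under `ρ`. Since
`det (P_F diag(s) P_F) ≥ ∏ s_i ^ π_i`, a set of points of the section where a Lipschitz function is far
from its mean under `ρ` has, with the weight `exp (-Y)`, `Y = ∑ π_i (t_i / 2 + (log 1/t_i)_+)`, a small
measure by the Poincare inequality of `ρ`; and the expectation of `Y` under `ν` is bounded. This, and
lower bounds for the volume and for the covariance of the section, follow from estimates for isotropic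
log-concave densities in dimension `d` and `d + 1` (marginals of `ρ`). So Lipschitz functions are
concentrated on the section, which implies the isoperimetric inequality for sets of measure one half by
a heat flow argument (modules `KH` of the starting files, with the gradient bound of the heat flow and
the concentration of Lipschitz functions in place of the weak Poincare inequality). The halfspace
constant bounds the variances because it forces exponential tails of the one-dimensional marginals.

The proofs of the lemmas `S_LD`, `S_LOG`, `S_MOM`, `S_VAR`, `S_DEC`, `S_CPL`, `S_CEN`, `S_SPL`, `S_DET`,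
`S_JAC`, `S_TH`, `S_MILA`, `S_MILB`, `S_HALF` are by helpers 363, 761, 100, 758, 67, 655, 362, 809, 487,
445, 665, 211.
-/

set_option autoImplicit false

namespace Pool.Agent.Results.MP_8d00da_gt.FewFacets

open MeasureTheory Set
open scoped ENNReal InnerProductSpace

/-- Euclidean space of dimension `n` -/
abbrev Euc (n : ℕ) : Type := EuclideanSpace ℝ (Fin n)

/-- the intersection of the `N` halfspaces `⟪v_i, x⟫ ≤ b_i` -/
def polyhedron {n N : ℕ} (v : Fin N → Euc n) (b : Fin N → ℝ) : Set (Euc n) :=
  {x | ∀ i, ⟪v i, x⟫_ℝ ≤ b i}

/-- Minkowski (exterior) boundary measure `μ⁺(A)` -/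
noncomputable def bdry {n : ℕ} (μ : Measure (Euc n)) (A : Set (Euc n)) : ℝ≥0∞ :=
  Filter.liminf (fun ε : ℝ => (μ (Metric.thickening ε A) - μ A) / ENNReal.ofReal ε)
    (nhdsWithin 0 (Set.Ioi 0))

/-- the halfspace `⟪u, x⟫ ≤ b` -/
def halfspace {n : ℕ} (u : Euc n) (b : ℝ) : Set (Euc n) := {x | inner ℝ u x ≤ b}

/-- the uniform probability measure on `K` -/
noncomputable def unif {n : ℕ} (K : Set (Euc n)) : Measure (Euc n) :=
  (volume K)⁻¹ • volume.restrict K

/-- the inequality of Kannan, Lovasz and Simonovits with constant `c` for the uniform measure `μ` on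
`K` and sets of measure one half: if `t min(μ H, 1 - μ H) ≤ μ⁺(H)` for all halfspaces `H` then
`c t min(μ A, 1 - μ A) ≤ μ⁺(A)` for all measurable `A` with `μ A = 1/2` -/
def KLSHalf {n : ℕ} (c : ℝ) (K : Set (Euc n)) : Prop :=
  ∀ t : ℝ≥0∞, (∀ (u : Euc n) (b : ℝ), u ≠ 0 →
      t * min (unif K (halfspace u b)) (1 - unif K (halfspace u b)) ≤
        bdry (unif K) (halfspace u b)) →
    ∀ A : Set (Euc n), MeasurableSet A → unif K A = 1 / 2 →
      ENNReal.ofReal c * t * min (unif K A) (1 - unif K A) ≤ bdry (unif K) A

/-- **KLS (Cheeger form) for polytopes with few facets.** For every `q` there is a constant `c > 0` such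
that for all `n ≥ 1` every bounded polyhedron `K ⊂ ℝⁿ` with nonempty interior given by at most `n + q`
linear inequalities satisfies the inequality of Kannan, Lovasz and Simonovits with constant `c` for
all sets of measure one half. -/
theorem result : ∀ q : ℕ, ∃ c : ℝ, 0 < c ∧ ∀ (n N : ℕ) (v : Fin N → Euc n) (b : Fin N → ℝ),
    1 ≤ n → N ≤ n + q → Bornology.IsBounded (polyhedron v b) →
    (interior (polyhedron v b)).Nonempty → KLSHalf c (polyhedron v b) := by
  intro q
  obtain ⟨c, hc, H⟩ := Pool.Agent.Y506.FF.cheHalf Pool.Agent.Y211.FF.half q
  refine ⟨c, hc, ?_⟩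
  intro n N v b hn hN hbd hint t ht A hA hA2
  have hvol : 0 < volume (polyhedron v b) :=
    lt_of_lt_of_le (isOpen_interior.measure_pos volume hint) (measure_mono interior_subset)
  have hprob : IsProbabilityMeasure (unif (polyhedron v b)) :=
    Pool.Agent.Y506.KS.unif_prob hvol hbd.measure_lt_top.ne
  have key := H n N hn hN v b hbd hint (unif (polyhedron v b)) rfl t ht A hA hA2
  refine le_trans ?_ key
  calc ENNReal.ofReal c * t * min (unif (polyhedron v b) A) (1 - unif (polyhedron v b) A)
      ≤ ENNReal.ofReal c * t * 1 := mul_le_mul_right ((min_le_left _ _).trans prob_le_one) _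
    _ = _ := mul_one _

end Pool.Agent.Results.MP_8d00da_gt.FewFacets
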