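import Pool.Agent.Y506.KS.Rv

/-!
# KLS for products of radial factors of arbitrary dimensions

The Kannan-Lovasz-Simonovits inequality, in the equivalent (Cheeger, Buser, Ledoux) form of a Poincare
inequality, for the probability measures on `ℝⁿ` with density `ρ(x) = ∏_i F_i(|Q_i x|²)`, where
`Q_i : ℝⁿ → ℝ^{m_i}` are linear maps, `∑ m_i ≤ n + q`, and the `F_i` are non-increasing log-concave
functions on `[0, ∞)`: restrictions of products of such radial densities of arbitrary dimensions to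
subspaces of codimension at most `q`. If every radial density `F_i(|s|²)` on `ℝ^{m_i}` lives on a
ball whose radius is at most `κ` times its root mean square norm (`κ = √8` for the uniform measures
on balls, theorem `factor_ball`), the Poincare constant is at most `C κ² (1 + q)⁴ ‖Cov ρ‖`. For
example KLS holds, with a constant depending only on `q`, for the uniform measures on the
intersections `{x : |Q_i x| ≤ 1 for all i}` of ellipsoidal cylinders of total dimension `n + q`, such as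
an ellipsoid cut by `q` symmetric slabs.

Method. After a linear change of variables `ℝⁿ` is the orthogonal complement of a `q`-dimensional
subspace `F` of `∏ ℝ^{m_i}`. The posteriors of the Gaussian channel with input density `ρ` are
sections of products of Gaussian tilts of the radial densities. New here is the bound for the tilts:
if `X, Y` are independent with a density proportional to `F(|x|²) exp(⟪a, x⟫ - b |x|²)` on `ℝ^k`, then
given `X + Y = 2 z` the density of `u = (X - Y) / 2` is proportional to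
`F(|z|² + |u|² + 2 ⟪z, u⟫) F(|z|² + |u|² - 2 ⟪z, u⟫) exp(- 2 b |u|²)`; it does not depend on `a`, for
given `|u|` it is a decreasing function of `|⟪z, u⟫|`, and the exchange of two coordinates, one of
them along `z`, shows that the second moment of `u` is smallest in the direction of `z`. So the
covariance of all tilts is at most `4 ρ² / k` if `F(t) = 0` for `t > ρ²`, whatever `a`, `b` and `k`
are. The covariances of sections and of product measures are compared by the Prekopa-Leindler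
inequality as in `SectionsOfProducts`.
-/

set_option autoImplicit false

namespace Pool.Agent.Results.MP_6d896a_gt.RadialFactors

open MeasureTheory Set
open scoped ENNReal InnerProductSpace

/-- Euclidean space of dimension `n` -/
abbrev Euc (n : ℕ) : Type := EuclideanSpace ℝ (Fin n)

/-- `F` is non-negative, non-increasing and log-concave on `[0, ∞)`, zero for large arguments and
positive near `0`, and the density `F(|s|²)` on `ℝ^k` is zero outside the ball whose radius is `κ` times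
its root mean square norm: `|s|² ∫ F(|u|²) du ≤ κ² ∫ |u|² F(|u|²) du` whenever `F(|s|²) ≠ 0`. -/
structure RadialFactor (k : ℕ) (κ : ℝ) (F : ℝ → ℝ) : Prop where
  nonneg : ∀ t, 0 ≤ t → 0 ≤ F t
  anti : ∀ s t, 0 ≤ s → s ≤ t → F t ≤ F s
  logc : ∀ x y t : ℝ, 0 ≤ x → 0 ≤ y → 0 < t → t < 1 →
    F x ^ (1 - t) * F y ^ t ≤ F ((1 - t) * x + t * y)
  bdd : ∃ T : ℝ, ∀ t, T < t → F t = 0
  pos : ∃ t : ℝ, 0 < t ∧ 0 < F t
  width : ∀ s : Euc k, F (‖s‖ ^ 2) ≠ 0 →
    ‖s‖ ^ 2 * (∫ u : Euc k, F (‖u‖ ^ 2)) ≤ κ ^ 2 * ∫ u : Euc k, ‖u‖ ^ 2 * F (‖u‖ ^ 2)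

/-- the uniform density on the unit ball of `ℝ^k` is a factor with `κ = √8`, for every `k ≥ 1` -/
theorem factor_ball {k : ℕ} (hk : 1 ≤ k) :
    RadialFactor k (Real.sqrt 8) (fun t => if t ≤ 1 then 1 else 0) := by
  have h := Pool.Agent.Y506.KS.ij_closed
  have hl := h.lf
  refine ⟨hl.nonneg, hl.anti, hl.lc, ⟨1, fun t ht => h.zero t ht⟩, hl.pos, fun s hs => ?_⟩
  have h1 := h.width (k := k) hk
  have hs1 : ‖s‖ ^ 2 ≤ 1 := by
    by_contra hn
    exact hs (h.zero _ (not_le.1 hn))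
  have h2 : 0 ≤ ∫ u : Euc k, (fun t : ℝ => if t ≤ 1 then (1 : ℝ) else 0) (‖u‖ ^ 2) :=
    integral_nonneg fun u => hl.nonneg _ (sq_nonneg _)
  exact (mul_le_mul_of_nonneg_right hs1 h2).trans h1

/-- the density `∏ F_i(|Q_i x|²)` -/
noncomputable def density {n N : ℕ} {d : Fin N → ℕ} (Q : ∀ i, Euc n →ₗ[ℝ] Euc (d i))
    (F : Fin N → ℝ → ℝ) (x : Euc n) : ℝ := ∏ i, F i (‖Q i x‖ ^ 2)

/-- `Var ⟪θ, X⟫ ≤ s ‖θ‖²` for all `θ`: the covariance matrix of `μ` has norm at most `s`. -/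
def CovLe {n : ℕ} (μ : Measure (Euc n)) (s : ℝ) : Prop :=
  ∀ θ : Euc n, ProbabilityTheory.evariance (fun x => ⟪θ, x⟫_ℝ) μ ≤ ENNReal.ofReal (s * ‖θ‖ ^ 2)

/-- **KLS for products of radial factors of arbitrary dimensions.** There is an absolute constant `C`
such that for all `n`, `q`, `N`, all linear maps `Q_i : ℝⁿ → ℝ^{m_i}`, `i < N`, with trivial common
kernel, `m_i ≥ 1` and `∑ m_i ≤ n + q`, all `κ > 0`, all radial factors `F_i` with constant `κ` in
dimension `m_i`, and every `s > 0` which bounds the norm of the covariance matrix of the probability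
measure `μ` with density `∏ F_i(|Q_i x|²)`: every `C¹` function `f` and the norm of its gradient are in
`L²(μ)` and `Var_μ f ≤ C κ² (1 + q)⁴ s ∫ ‖∇ f‖² dμ`. -/
theorem result : ∃ C : ℝ, 0 < C ∧ ∀ (n q N : ℕ) (d : Fin N → ℕ) (Q : ∀ i, Euc n →ₗ[ℝ] Euc (d i))
    (F : Fin N → ℝ → ℝ) (κ : ℝ), 0 < κ → (∀ x, (∀ i, Q i x = 0) → x = 0) →
    (∀ i, 1 ≤ d i) → ∑ i, d i ≤ n + q → (∀ i, RadialFactor (d i) κ (F i)) →
    ∀ μ : Measure (Euc n), μ = volume.withDensity (fun x => ENNReal.ofReal (density Q F x)) →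
    IsProbabilityMeasure μ → ∀ s : ℝ, 0 < s → CovLe μ s → ∀ f : Euc n → ℝ, ContDiff ℝ 1 f →
    MemLp f 2 μ ∧ MemLp (fun x => ‖fderiv ℝ f x‖) 2 μ ∧ ProbabilityTheory.variance f μ ≤
      C * κ ^ 2 * (1 + q) ^ 4 * s * ∫ x, ‖fderiv ℝ f x‖ ^ 2 ∂μ := by
  refine ⟨16 * (4 * 1376256), by norm_num, ?_⟩
  intro n q N d Q F κ hκ hQ hd hsum hF μ hμ hprob s hs hcov f hf
  let Q' : ∀ i, Euc n →L[ℝ] Euc (d i) := fun i => LinearMap.toContinuousLinearMap (Q i)
  have hQ' : ∀ x, (∀ i, Q' i x = 0) → x = 0 := fun x hx => hQ x hx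
  have hlf0 : ∀ i, ∃ T : ℝ, Pool.Agent.Y506.KS.LF (F i) T := fun i => by
    obtain ⟨T, hT⟩ := (hF i).bdd
    exact ⟨T, (hF i).nonneg, (hF i).anti, (hF i).logc, fun t _ ht => hT t ht, (hF i).pos⟩
  choose T0 hT0 using hlf0
  obtain ⟨R0, hFam0⟩ := Pool.Agent.Y506.KS.rd_fam (m := d) hT0
  have hI : ∀ i, 0 < ∫ u : Euc (d i), F i (‖u‖ ^ 2) := fun i => hFam0.ipos i
  let T : Fin N → ℝ := fun i => κ ^ 2 * (∫ u : Euc (d i), ‖u‖ ^ 2 * F i (‖u‖ ^ 2)) /
    ∫ u : Euc (d i), F i (‖u‖ ^ 2)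
  have hTI : ∀ i, T i * (∫ u : Euc (d i), F i (‖u‖ ^ 2)) =
      κ ^ 2 * ∫ u : Euc (d i), ‖u‖ ^ 2 * F i (‖u‖ ^ 2) := fun i => by
    simp only [T]
    rw [div_mul_cancel₀ _ (hI i).ne']
  have hlf : ∀ i, Pool.Agent.Y506.KS.LF (F i) (T i) := fun i => by
    refine ⟨(hF i).nonneg, (hF i).anti, (hF i).logc, fun t ht0 ht => ?_, (hF i).pos⟩
    by_contra hne
    have hnd : Nonempty (Fin (d i)) := ⟨⟨0, hd i⟩⟩
    obtain ⟨j⟩ := hnd
    obtain ⟨e, he⟩ : ∃ e : Euc (d i), ‖e‖ ^ 2 = t := by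
      refine ⟨Real.sqrt t • EuclideanSpace.single j (1 : ℝ), ?_⟩
      rw [norm_smul, mul_pow, Real.norm_eq_abs, sq_abs, Real.sq_sqrt ht0]
      simp
    have h1 := (hF i).width e (by rw [he]; exact hne)
    rw [he, ← hTI] at h1
    exact absurd (le_of_mul_le_mul_right h1 (hI i)) (not_le.2 ht)
  obtain ⟨R1, hFam⟩ := Pool.Agent.Y506.KS.rd_fam (m := d) hlf
  have hμ' : μ = Pool.Agent.H212R2.KLS.mu (Pool.Agent.Y506.KS.dn Q'
      (Pool.Agent.Y506.KS.rd d F)) := by
    rw [hμ]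
    rfl
  subst hμ'
  obtain ⟨h1, h2, h3⟩ := Pool.Agent.Y506.KS.var_gen hQ' hFam (fun i s => by
      unfold Pool.Agent.Y506.KS.rd
      rw [norm_neg]) hprob s hs hcov (1376256 * ((q : ℝ) + 2) ^ 4 * (4 * κ ^ 2) * s)
    (fun hc g hg hg0 => Pool.Agent.Y506.KS.rad_poincare hQ' hlf
      (fun i => Nat.lt_of_lt_of_le Nat.zero_lt_one (hd i)) κ hκ (fun i => (hTI i).le) q
      (by simpa using hsum) s hs hc g hg hg0) f hf
  refine ⟨h1, h2, h3.trans ?_⟩
  have h4 : ((q : ℝ) + 2) ^ 4 ≤ 16 * (1 + q) ^ 4 := by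
    have h5 : (q : ℝ) + 2 ≤ 2 * (1 + q) := by
      have : (0 : ℝ) ≤ q := Nat.cast_nonneg q
      linarith
    calc ((q : ℝ) + 2) ^ 4 ≤ (2 * (1 + q)) ^ 4 := pow_le_pow_left₀ (by positivity) h5 4
      _ = _ := by ring
  refine mul_le_mul_of_nonneg_right ?_ (integral_nonneg fun x => sq_nonneg _)
  refine mul_le_mul_of_nonneg_right ?_ hs.le
  calc 1376256 * ((q : ℝ) + 2) ^ 4 * (4 * κ ^ 2)
      ≤ 1376256 * (16 * (1 + q) ^ 4) * (4 * κ ^ 2) := by gcongr
    _ = _ := by ring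

end Pool.Agent.Results.MP_6d896a_gt.RadialFactors
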